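import Pool.Agent.helper88.GR.Spec

set_option autoImplicit false

open Complex Metric Set Filter Topology MeasureTheory
open MPS (om)
open PPS (pre TT fd)
open XPS (Df er dens tau)
open Pool.Agent.helper16.Multibrot

noncomputable section

namespace GR

theorem BDM_succ (n : ℕ) (c : ℂ) (j : ℕ) : Z n c (j + 1) = Z n c j ^ n + c := by
  unfold Z
  rw [Function.iterate_succ_apply']

/-- one step outside of the disc of radius `2` -/
theorem BDM_step {n : ℕ} (hn : 2 ≤ n) {c z : ℂ} (hz : 2 < ‖z‖) (hcz : ‖c‖ ≤ ‖z‖) :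
    (‖z‖ - 1) * ‖z‖ ≤ ‖z ^ n + c‖ := by
  have h1 : ‖z‖ ^ 2 ≤ ‖z ^ n‖ := by
    rw [norm_pow]
    exact pow_le_pow_right₀ (by linarith) hn
  have h2 : ‖z ^ n‖ ≤ ‖z ^ n + c‖ + ‖c‖ := by
    calc ‖z ^ n‖ = ‖(z ^ n + c) - c‖ := by ring_nf
      _ ≤ ‖z ^ n + c‖ + ‖c‖ := norm_sub_le _ _
  nlinarith

/-- escape from a point of the critical orbit outside of the disc of radius `2` -/
theorem BDM_grow {n : ℕ} (hn : 2 ≤ n) {c : ℂ} {j : ℕ} (hz : 2 < ‖Z n c j‖)
    (hcz : ‖c‖ ≤ ‖Z n c j‖) (k : ℕ) :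
    (‖Z n c j‖ - 1) ^ k * ‖Z n c j‖ ≤ ‖Z n c (j + k)‖ := by
  set t := ‖Z n c j‖ with ht
  induction k with
  | zero => simp [ht]
  | succ k ih =>
    have h1 : 1 ≤ (t - 1) ^ k := one_le_pow₀ (by linarith)
    have h2 : t ≤ ‖Z n c (j + k)‖ := by nlinarith
    have h3 := BDM_step hn (c := c) (z := Z n c (j + k)) (by linarith) (by linarith)
    rw [← BDM_succ] at h3
    rw [← add_assoc]
    refine le_trans ?_ h3
    calc (t - 1) ^ (k + 1) * t = (t - 1) * ((t - 1) ^ k * t) := by ring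
      _ ≤ (t - 1) * ‖Z n c (j + k)‖ := mul_le_mul_of_nonneg_left ih (by linarith)
      _ ≤ (‖Z n c (j + k)‖ - 1) * ‖Z n c (j + k)‖ :=
        mul_le_mul_of_nonneg_right (by linarith) (norm_nonneg _)

theorem BDM_tendsto {n : ℕ} (hn : 2 ≤ n) {c : ℂ} {j : ℕ} (hz : 2 < ‖Z n c j‖)
    (hcz : ‖c‖ ≤ ‖Z n c j‖) : Tendsto (fun k : ℕ => ‖Z n c k‖) atTop atTop := by
  have h1 : Tendsto (fun k : ℕ => (‖Z n c j‖ - 1) ^ k * ‖Z n c j‖) atTop atTop :=
    (tendsto_pow_atTop_atTop_of_one_lt (by linarith)).atTop_mul_const (by linarith)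
  have h2 : Tendsto (fun k : ℕ => ‖Z n c (k + j)‖) atTop atTop := by
    refine tendsto_atTop_mono (fun k => ?_) h1
    rw [add_comm k j]
    exact BDM_grow hn hz hcz k
  exact (tendsto_add_atTop_iff_nat j).mp h2

theorem BDM : BDM_stmt := by
  intro n c hn hc j
  by_contra hj
  push Not at hj
  apply hc
  by_cases hcz : ‖c‖ ≤ ‖Z n c j‖
  · exact BDM_tendsto hn hj hcz
  · push Not at hcz
    have h1 : Z n c 1 = c := by
      rw [BDM_succ n c 0]
      unfold Z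
      simp only [Function.iterate_zero, id_eq]
      rw [zero_pow (by omega), zero_add]
    exact BDM_tendsto (j := 1) hn (by rw [h1]; linarith) (by rw [h1])

end GR
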